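import Pool.Agent.Helper26.SK.EvalBasic

/-!
# MP_05e0c2_gt, block M1: isotopy invariance of the evaluation, moves without vertices (helper14)
-/

namespace Pool.Agent.Helper26.SK

open Str Piece

/-- The moves without vertices. -/
inductive Plain : List Piece → List Piece → Prop
  | far (x y : Piece) (h : x.pos ≤ y.pos) : Plain [x, y.shift (x.out 3)] [y.shift (x.inn 3), x]
  | zigR (i : ℕ) (u : Bool) (k : ℕ) : Plain [cup i u k, cap (i + 1)] []
  | zigL (i : ℕ) (u : Bool) (k : ℕ) : Plain [cup (i + 1) u k, cap i] []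
  | slideCup (i : ℕ) (u : Bool) (k : ℕ) (o : Bool) :
      Plain [cup i u k, cr (i + 1) o] [cup (i + 1) u k, cr i (!o)]
  | slideCap (i : ℕ) (o : Bool) : Plain [cr i o, cap (i + 1)] [cr (i + 1) (!o), cap i]
  | r2 (i : ℕ) (o : Bool) : Plain [cr i o, cr i (!o)] []
  | r3 (i : ℕ) (o₁ o₂ o₃ : Bool) :
      Plain [cr i o₁, cr (i + 1) o₂, cr i o₃] [cr (i + 1) o₃, cr i o₂, cr (i + 1) o₁]
  | curl (i : ℕ) (u : Bool) (k : ℕ) (o : Bool) :
      Plain [cup (i + 1) u k, cr i o, cap (i + 1)] [cup i (!u) k, cr (i + 1) o, cap i]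

namespace M1

variable {ζ : ℂ}

theorem step_cup_inv {i : ℕ} {u : Bool} {c : ℕ} {s t : List Str} (h : Step 3 (cup i u c) s t) :
    ∃ A B, A.length = i ∧ s = A ++ B ∧ t = A ++ [web u c, web (!u) c] ++ B := by
  generalize hp : cup i u c = p at h
  cases h with
  | cup A B u' k' h =>
    simp only [Piece.cup.injEq] at hp
    obtain ⟨hA, rfl, rfl⟩ := hp
    exact ⟨A, B, hA.symm, rfl, rfl⟩
  | _ => simp at hp

theorem step_cap_inv {i : ℕ} {s t : List Str} (h : Step 3 (cap i) s t) :
    ∃ A B u c, A.length = i ∧ s = A ++ [web u c, web (!u) c] ++ B ∧ t = A ++ B := by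
  generalize hp : cap i = p at h
  cases h with
  | cap A B u' k' =>
    simp only [Piece.cap.injEq] at hp
    exact ⟨A, B, u', k', hp.symm, rfl, rfl⟩
  | _ => simp at hp

theorem step_cr_inv {i : ℕ} {o : Bool} {s t : List Str} (h : Step 3 (cr i o) s t) :
    ∃ A B x y, A.length = i ∧ s = A ++ [x, y] ++ B ∧ t = A ++ [y, x] ++ B := by
  generalize hp : cr i o = p at h
  cases h with
  | cr A B x y o' h =>
    simp only [Piece.cr.injEq] at hp
    exact ⟨A, B, x, y, hp.1.symm, rfl, rfl⟩
  | _ => simp at hp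

theorem red (D0 E0 : List Piece) (cA c0 : List CS) (k : Cont)
    (h : ∀ k, actW ζ D0 c0 k = actW ζ E0 c0 k) :
    actW ζ (D0.map (shift cA.length)) (cA ++ c0) k =
      actW ζ (E0.map (shift cA.length)) (cA ++ c0) k := by
  rw [actW_shift, actW_shift, h]

theorem zp_add (hζ : ζ ^ 3 = 1) (e f : ZMod 3) : zp ζ (e + f) = zp ζ e * zp ζ f := by
  unfold zp
  rw [← pow_add]
  have h1 : (e + f).val = (e.val + f.val) % 3 := ZMod.val_add e f
  rw [h1]
  conv_rhs => rw [← Nat.mod_add_div (e.val + f.val) 3, pow_add, pow_mul, hζ, one_pow, mul_one]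

theorem zp_zero : zp ζ 0 = 1 := by
  simp [zp]

theorem act_cr0 (o : Bool) (x y : CS) (r : List CS) (k : Cont) :
    act ζ (cr 0 o) (x :: y :: r) k = zp ζ (cx o x y) * k (y :: x :: r) := rfl

theorem act_cr1 (o : Bool) (w x y : CS) (r : List CS) (k : Cont) :
    act ζ (cr 1 o) (w :: x :: y :: r) k = zp ζ (cx o x y) * k (w :: y :: x :: r) := rfl

theorem act_cup0 (u : Bool) (c : ℕ) (r : List CS) (k : Cont) :
    act ζ (cup 0 u c) r k =
      (((List.finRange 8).filter fun S => card S = c).map fun S =>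
        k (CS.web u S :: CS.web (!u) S :: r)).sum := by
  change baseLoc (cup 0 u c) r k = _
  unfold baseLoc
  simp only [Piece.inn, Nat.zero_le, ↓reduceIte, loc, List.map_map, List.drop_zero]
  congr 1
  apply List.map_congr_left
  intro S _
  simp

theorem act_cup1 (u : Bool) (c : ℕ) (x : CS) (r : List CS) (k : Cont) :
    act ζ (cup 1 u c) (x :: r) k =
      (((List.finRange 8).filter fun S => card S = c).map fun S =>
        k (x :: CS.web u S :: CS.web (!u) S :: r)).sum :=
  act_cup0 (ζ := ζ) u c r (fun t => k (x :: t))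

/-- The value of a cap on two strands. -/
def capv : CS → CS → Bool
  | .web u S, .web u' T => u' = !u ∧ S = T
  | _, _ => false

theorem act_cap0 (x y : CS) (r : List CS) (k : Cont) :
    act ζ (cap 0) (x :: y :: r) k = if capv x y then k r else 0 := by
  change baseLoc (cap 0) (x :: y :: r) k = _
  unfold baseLoc
  simp only [Piece.inn, List.length_cons, Nat.le_add_left, ↓reduceIte, loc, List.take_succ_cons,
    List.take_zero, List.drop_succ_cons, List.drop_zero]
  match x, y with
  | .web u S, .web u' T =>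
    simp only [locCap, capv]
    by_cases h : u' = !u ∧ S = T
    · simp [h]
    · simp only [h, ↓reduceIte, decide_false]
      simp
  | .pole _ _, .web _ _ => simp [locCap, capv]
  | .web _ _, .pole _ _ => simp [locCap, capv]
  | .pole _ _, .pole _ _ => simp [locCap, capv]

theorem act_cap1 (w x y : CS) (r : List CS) (k : Cont) :
    act ζ (cap 1) (w :: x :: y :: r) k = if capv x y then k (w :: r) else 0 :=
  act_cap0 (ζ := ζ) x y r (fun t => k (w :: t))

theorem cx_web_slide (o : Bool) (u : Bool) (S : Fin 8) (y : CS) :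
    cx o (CS.web (!u) S) y = cx (!o) y (CS.web u S) := by
  match y with
  | .pole c e => cases o <;> cases u <;> simp [cx]
  | .web u' T =>
    simp only [cx]
    rw [mul_comm (card T : ZMod 3) (card S : ZMod 3)]
    cases o <;> cases u <;> cases u' <;> simp

theorem cx_inv (o : Bool) (x y : CS) : cx o x y + cx (!o) y x = 0 := by
  match x, y with
  | .pole _ _, .pole _ _ => simp [cx]
  | .pole c e, .web u S => cases o <;> cases u <;> simp [cx]
  | .web u S, .pole c e => cases o <;> cases u <;> simp [cx]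
  | .web u S, .web u' T =>
    simp only [cx]
    rw [mul_comm (card T : ZMod 3) (card S : ZMod 3)]
    cases o <;> cases u <;> cases u' <;> simp

/-- collapsing a sum over colours -/
theorem sum_collapse (S : Fin 8) (f : Fin 8 → ℂ) (hf : ∀ T, T ≠ S → f T = 0) :
    (((List.finRange 8).filter fun T => card T = card S).map f).sum = f S := by
  have h1 : (((List.finRange 8).filter fun T => card T = card S).map f).sum =
      ∑ T : Fin 8, if card T = card S then f T else 0 := by
    rw [← Finset.sum_filter]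
    rfl
  rw [h1, Finset.sum_eq_single S]
  · simp
  · intro T _ hT
    rw [hf T hT]
    simp
  · intro h
    exact absurd (Finset.mem_univ S) h

theorem zigR0 (u : Bool) (S : Fin 8) (r : List CS) (k : Cont) :
    actW ζ [cup 0 u (card S), cap 1] (CS.web u S :: r) k = k (CS.web u S :: r) := by
  simp only [actW]
  rw [act_cup0]
  simp only [act_cap1]
  rw [sum_collapse S]
  · simp [capv]
  · intro T hT
    simp [capv, hT]

theorem zigL0 (u : Bool) (S : Fin 8) (r : List CS) (k : Cont) :
    actW ζ [cup 1 u (card S), cap 0] (CS.web (!u) S :: r) k = k (CS.web (!u) S :: r) := by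
  simp only [actW]
  rw [act_cup1]
  simp only [act_cap0]
  rw [sum_collapse S]
  · simp [capv]
  · intro T hT
    simp [capv, hT.symm]

theorem slideCup0 (u : Bool) (c : ℕ) (o : Bool) (y : CS) (r : List CS) (k : Cont) :
    actW ζ [cup 0 u c, cr 1 o] (y :: r) k = actW ζ [cup 1 u c, cr 0 (!o)] (y :: r) k := by
  simp only [actW]
  rw [act_cup0, act_cup1]
  congr 1
  apply List.map_congr_left
  intro S _
  rw [act_cr1, act_cr0, cx_web_slide]

theorem slideCap0 (o : Bool) (x y z : CS) (r : List CS) (k : Cont) :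
    actW ζ [cr 0 o, cap 1] (x :: y :: z :: r) k = actW ζ [cr 1 (!o), cap 0] (x :: y :: z :: r) k := by
  simp only [actW]
  rw [act_cr0, act_cr1, act_cap1, act_cap0]
  by_cases h : capv x z = true
  · match x, z with
    | .web u S, .web u' T =>
      simp only [capv, decide_eq_true_eq] at h
      obtain ⟨rfl, rfl⟩ := h
      have := cx_web_slide o (!u) S y
      rw [Bool.not_not] at this
      rw [this]
    | .web _ _, .pole _ _ => simp [capv] at h
    | .pole _ _, .web _ _ => simp [capv] at h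
    | .pole _ _, .pole _ _ => simp [capv] at h
  · simp [h]

theorem r20 (hζ : ζ ^ 3 = 1) (o : Bool) (x y : CS) (r : List CS) (k : Cont) :
    actW ζ [cr 0 o, cr 0 (!o)] (x :: y :: r) k = actW ζ [] (x :: y :: r) k := by
  simp only [actW]
  rw [act_cr0, act_cr0, ← mul_assoc, ← zp_add hζ, cx_inv, zp_zero, one_mul]

theorem r30 (o₁ o₂ o₃ : Bool) (x y z : CS) (r : List CS) (k : Cont) :
    actW ζ [cr 0 o₁, cr 1 o₂, cr 0 o₃] (x :: y :: z :: r) k =
      actW ζ [cr 1 o₃, cr 0 o₂, cr 1 o₁] (x :: y :: z :: r) k := by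
  simp only [actW]
  rw [act_cr0, act_cr1, act_cr0, act_cr1, act_cr0, act_cr1]
  ring

theorem curl0 (u : Bool) (S : Fin 8) (o : Bool) (r : List CS) (k : Cont) :
    actW ζ [cup 1 u (card S), cr 0 o, cap 1] (CS.web u S :: r) k =
      actW ζ [cup 0 (!u) (card S), cr 1 o, cap 0] (CS.web u S :: r) k := by
  simp only [actW]
  rw [act_cup1, act_cup0]
  simp only [act_cr0, act_cr1, act_cap0, act_cap1]
  rw [sum_collapse S, sum_collapse S]
  · simp [capv]
  · intro T hT
    simp [capv, hT]
  · intro T hT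
    simp [capv, hT.symm]

theorem decomp {cs : List CS} {A : List Str} {B : List Str} (h : cs.map ty = A ++ B) :
    ∃ cA cB, cs = cA ++ cB ∧ cA.map ty = A ∧ cB.map ty = B ∧ cA.length = A.length := by
  obtain ⟨l1, l2, h1, h2, h3⟩ := List.map_eq_append_iff.1 h
  exact ⟨l1, l2, h1, h2, h3, by rw [← h2, List.length_map]⟩

theorem ty_web {c : CS} {u : Bool} {n : ℕ} (h : ty c = web u n) :
    ∃ S, c = CS.web u S ∧ card S = n := by
  match c with
  | .pole _ _ => simp [ty] at h
  | .web u' S =>
    simp only [ty, Str.web.injEq] at h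
    obtain ⟨rfl, h⟩ := h
    exact ⟨S, rfl, h⟩

end M1

open M1 in
theorem actW_plain {ζ : ℂ} (hζ : ζ ^ 3 = 1) {D E : List Piece} (h : Plain D E) {s t : List Str}
    (hD : Run 3 D s t) (hE : Run 3 E s t) (cs : List CS) (hcs : cs.map ty = s) (k : Cont) :
    actW ζ D cs k = actW ζ E cs k := by
  cases h with
  | far x y h => exact act_far x y h cs k
  | zigR i u n =>
    obtain ⟨r, h1, r', h2, h3⟩ := hD
    obtain ⟨A, B, rfl, rfl, rfl⟩ := step_cup_inv h1
    obtain ⟨A', B', u', c', hA', h4, h5⟩ := step_cap_inv h2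
    have h6 : (A ++ [web u n]) ++ ([web (!u) n] ++ B) = A' ++ ([web u' c', web (!u') c'] ++ B') := by
      simpa using h4
    obtain ⟨rfl, h7⟩ := List.append_inj h6 (by simp [hA'])
    simp only [List.cons_append, List.nil_append, List.cons.injEq, Str.web.injEq] at h7
    obtain ⟨⟨rfl, rfl⟩, rfl⟩ := h7
    obtain ⟨cA, cB, rfl, hcA, hcB, hl⟩ := decomp hcs
    match cB with
    | [] => simp at hcB
    | c0 :: cr' =>
      simp only [List.map_cons, List.cons.injEq, Bool.not_not] at hcB
      obtain ⟨S, rfl, hS⟩ := ty_web hcB.1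
      subst hS
      have e := red (ζ := ζ) [cup 0 u (card S), cap 1] [] cA (CS.web u S :: cr') k
        (fun k => zigR0 u S cr' k)
      rw [hl] at e
      simpa [Piece.shift, Nat.add_comm] using e
  | zigL i u n =>
    obtain ⟨r, h1, r', h2, h3⟩ := hD
    obtain ⟨A, B, hA, rfl, rfl⟩ := step_cup_inv h1
    obtain ⟨A', B', u', c', rfl, h4, h5⟩ := step_cap_inv h2
    obtain ⟨A0, x, rfl⟩ : ∃ A0 x, A = A0 ++ [x] := by
      rcases List.eq_nil_or_concat A with h | ⟨A0, x, h⟩
      · subst h; simp at hA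
      · exact ⟨A0, x, by simpa using h⟩
    have h6 : A0 ++ ([x, web u n] ++ ([web (!u) n] ++ B)) = A' ++ ([web u' c', web (!u') c'] ++ B') := by
      simpa using h4
    obtain ⟨rfl, h7⟩ := List.append_inj h6 (by simpa using hA)
    simp only [List.cons_append, List.nil_append, List.cons.injEq, Str.web.injEq] at h7
    obtain ⟨rfl, ⟨rfl, rfl⟩, rfl⟩ := h7
    rw [List.append_assoc] at hcs
    obtain ⟨cA, cB, rfl, hcA, hcB, hl⟩ := decomp hcs
    match cB with
    | [] => simp at hcB
    | c0 :: cr' =>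
      simp only [List.map_cons, List.cons.injEq, List.cons_append] at hcB
      obtain ⟨S, rfl, hS⟩ := ty_web hcB.1
      subst hS
      have e := red (ζ := ζ) [cup 1 (!u') (card S), cap 0] [] cA (CS.web u' S :: cr') k
        (fun k => by
          have := zigL0 (ζ := ζ) (!u') S cr' k
          rw [Bool.not_not] at this
          exact this)
      rw [hl] at e
      simpa [Piece.shift, Nat.add_comm] using e
  | slideCup i u n o =>
    obtain ⟨r, h1, r', h2, h3⟩ := hD
    obtain ⟨A, B, rfl, rfl, rfl⟩ := step_cup_inv h1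
    obtain ⟨A', B', x, y, hA', h4, h5⟩ := step_cr_inv h2
    have h6 : (A ++ [web u n]) ++ ([web (!u) n] ++ B) = A' ++ ([x, y] ++ B') := by
      simpa using h4
    obtain ⟨rfl, h7⟩ := List.append_inj h6 (by simp [hA'])
    simp only [List.cons_append, List.nil_append, List.cons.injEq] at h7
    obtain ⟨rfl, rfl⟩ := h7
    obtain ⟨cA, cB, rfl, hcA, hcB, hl⟩ := decomp hcs
    match cB with
    | [] => simp at hcB
    | c0 :: cr' =>
      have e := red (ζ := ζ) [cup 0 u n, cr 1 o] [cup 1 u n, cr 0 (!o)] cA (c0 :: cr') k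
        (fun k => slideCup0 u n o c0 cr' k)
      rw [hl] at e
      simpa [Piece.shift, Nat.add_comm] using e
  | slideCap i o =>
    obtain ⟨r, h1, r', h2, h3⟩ := hD
    obtain ⟨A, B, x, y, rfl, rfl, rfl⟩ := step_cr_inv h1
    obtain ⟨A', B', u', c', hA', h4, h5⟩ := step_cap_inv h2
    have h6 : (A ++ [y]) ++ ([x] ++ B) = A' ++ ([web u' c', web (!u') c'] ++ B') := by
      simpa using h4
    obtain ⟨rfl, h7⟩ := List.append_inj h6 (by simp [hA'])
    simp only [List.cons_append, List.nil_append, List.cons.injEq] at h7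
    obtain ⟨rfl, rfl⟩ := h7
    rw [List.append_assoc] at hcs
    obtain ⟨cA, cB, rfl, hcA, hcB, hl⟩ := decomp hcs
    match cB with
    | [] => simp at hcB
    | [_] => simp at hcB
    | [_, _] => simp at hcB
    | c0 :: c1 :: c2 :: cr' =>
      have e := red (ζ := ζ) [cr 0 o, cap 1] [cr 1 (!o), cap 0] cA (c0 :: c1 :: c2 :: cr') k
        (fun k => slideCap0 o c0 c1 c2 cr' k)
      rw [hl] at e
      simpa [Piece.shift, Nat.add_comm] using e
  | r2 i o =>
    obtain ⟨r, h1, r', h2, h3⟩ := hD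
    obtain ⟨A, B, x, y, rfl, rfl, rfl⟩ := step_cr_inv h1
    rw [List.append_assoc] at hcs
    obtain ⟨cA, cB, rfl, hcA, hcB, hl⟩ := decomp hcs
    match cB with
    | [] => simp at hcB
    | [_] => simp at hcB
    | c0 :: c1 :: cr' =>
      have e := red (ζ := ζ) [cr 0 o, cr 0 (!o)] [] cA (c0 :: c1 :: cr') k
        (fun k => r20 hζ o c0 c1 cr' k)
      rw [hl] at e
      simpa [Piece.shift, Nat.add_comm] using e
  | r3 i o₁ o₂ o₃ =>
    obtain ⟨r, h1, r', h2, h3⟩ := hD
    obtain ⟨A, B, x, y, rfl, rfl, rfl⟩ := step_cr_inv h1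
    obtain ⟨A', B', x', y', hA', h4, h5⟩ := step_cr_inv h2
    have h6 : (A ++ [y]) ++ ([x] ++ B) = A' ++ ([x', y'] ++ B') := by
      simpa using h4
    obtain ⟨rfl, h7⟩ := List.append_inj h6 (by simp [hA'])
    simp only [List.cons_append, List.nil_append, List.cons.injEq] at h7
    obtain ⟨rfl, rfl⟩ := h7
    rw [List.append_assoc] at hcs
    obtain ⟨cA, cB, rfl, hcA, hcB, hl⟩ := decomp hcs
    match cB with
    | [] => simp at hcB
    | [_] => simp at hcB
    | [_, _] => simp at hcB
    | c0 :: c1 :: c2 :: cr' =>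
      have e := red (ζ := ζ) [cr 0 o₁, cr 1 o₂, cr 0 o₃] [cr 1 o₃, cr 0 o₂, cr 1 o₁] cA
        (c0 :: c1 :: c2 :: cr') k (fun k => r30 o₁ o₂ o₃ c0 c1 c2 cr' k)
      rw [hl] at e
      simpa [Piece.shift, Nat.add_comm] using e
  | curl i u n o =>
    obtain ⟨r, h1, r', h2, r'', h3, h3'⟩ := hD
    obtain ⟨A, B, hA, rfl, rfl⟩ := step_cup_inv h1
    obtain ⟨A', B', x', y', rfl, h4, rfl⟩ := step_cr_inv h2
    obtain ⟨A'', B'', u', c', hA'', h5, h5'⟩ := step_cap_inv h3
    obtain ⟨A0, x, rfl⟩ : ∃ A0 x, A = A0 ++ [x] := by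
      rcases List.eq_nil_or_concat A with h | ⟨A0, x, h⟩
      · subst h; simp at hA
      · exact ⟨A0, x, by simpa using h⟩
    have h6 : A0 ++ ([x, web u n] ++ ([web (!u) n] ++ B)) = A' ++ ([x', y'] ++ B') := by
      simpa using h4
    obtain ⟨rfl, h7⟩ := List.append_inj h6 (by simpa using hA)
    simp only [List.cons_append, List.nil_append, List.cons.injEq] at h7
    obtain ⟨rfl, rfl, rfl⟩ := h7
    have h8 : (A0 ++ [web u n]) ++ ([x] ++ ([web (!u) n] ++ B)) =
        A'' ++ ([web u' c', web (!u') c'] ++ B'') := by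
      simpa using h5
    obtain ⟨rfl, h9⟩ := List.append_inj h8 (by simp [hA''])
    simp only [List.cons_append, List.nil_append, List.cons.injEq, Str.web.injEq] at h9
    obtain ⟨rfl, ⟨h10, rfl⟩, rfl⟩ := h9
    have hu : u = u' := by
      cases u <;> cases u' <;> simp_all
    subst hu
    rw [List.append_assoc] at hcs
    obtain ⟨cA, cB, rfl, hcA, hcB, hl⟩ := decomp hcs
    match cB with
    | [] => simp at hcB
    | c0 :: cr' =>
      simp only [List.map_cons, List.cons.injEq, List.cons_append] at hcB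
      obtain ⟨S, rfl, hS⟩ := ty_web hcB.1
      subst hS
      have e := red (ζ := ζ) [cup 1 u (card S), cr 0 o, cap 1] [cup 0 (!u) (card S), cr 1 o, cap 0]
        cA (CS.web u S :: cr') k (fun k => curl0 u S o cr' k)
      rw [hl] at e
      simpa [Piece.shift, Nat.add_comm] using e

end Pool.Agent.Helper26.SK
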